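import Pool.Agent.TH121.KT.Defs
import Pool.Agent.TH132.P.Defs

/-!
# Poles of the zeta functions of products with K3 surfaces: definitions
-/

set_option autoImplicit false

open CategoryTheory AlgebraicGeometry NumberField

universe u v

namespace Pool.Agent.L7h78.KP

open Pool.Agent.H914 Pool.Agent.H914.VarClass Pool.Agent.H914.VarClass.Obj
  Pool.Agent.H914.WeilCohomology Pool.Agent.W534 Pool.Agent.TH132.P Pool.Agent.TH121.KT

/-- `α` is an eigenvalue of Frobenius on the transcendental part of `H²(X̄, ℚ_ℓ(1))`, for a K3
surface `X` of finite height over the field with `p ^ a` elements (after a finite extension of the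
field): `α` generates the CM field `E`, and so do all its powers, all complex absolute values of
`α` are one, `p ^ a α` is an algebraic integer, and the `p`-adic embeddings `σ` of `E` with
`‖σ α‖ > 1` belong to one place of `E`: they are conjugate over `ℚ_p`. -/
structure IsK3Number (p a : ℕ) [Fact p.Prime] {E : Type} [Field E] [NumberField E] (α : E) :
    Prop where
  cm : NumberField.IsCMField E
  unitary : ∀ φ : E →+* ℂ, ‖φ α‖ = 1
  integral : IsIntegral ℤ ((p : E) ^ a * α)
  powers : ∀ s : ℕ, 0 < s → IntermediateField.adjoin ℚ {α ^ s} = ⊤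
  place : ∀ σ τ : E →+* PadicAlgCl p, 1 < ‖σ α‖ → 1 < ‖τ α‖ →
    ∃ g : PadicAlgCl p ≃ₐ[ℚ_[p]] PadicAlgCl p, ∀ x, τ x = g (σ x)

/-- The degree over `ℚ_p` of the completion of `E` at the place where `α` has absolute value
greater than one. -/
noncomputable def localDeg (p : ℕ) [Fact p.Prime] {E : Type} [Field E] (α : E) : ℕ :=
  Nat.card {σ : E →+* PadicAlgCl p // 1 < ‖σ α‖}

/-- The CM field `E` is *independent* of the field `L`: some automorphism of the algebraic closure of
`ℚ` is the identity on `L` and the complex conjugation on all conjugates of `E` (if `L` is a Galois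
extension of `ℚ`: the intersection of `L` and of the Galois closure of `E` is totally real). -/
def IsIndependentField (E : Type) [Field E] [NumberField E] [IsCMField E]
    (L : IntermediateField ℚ (AlgebraicClosure ℚ)) : Prop :=
  ∃ h : AlgebraicClosure ℚ ≃ₐ[ℚ] AlgebraicClosure ℚ, (∀ x ∈ L, h x = x) ∧
    ∀ (σ : E →+* AlgebraicClosure ℚ) (x : E), h (σ x) = σ (IsCMField.complexConj E x)

/-- The nine exceptional pairs `(d, m)` for at most three copies. -/
def ninePairs : Finset (ℕ × ℕ) :=
  {(3, 2), (6, 2), (6, 3), (6, 4), (9, 2), (9, 4), (9, 6), (10, 4), (10, 6)}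

/-- The four exceptional pairs `(d, m)` with `m` odd. -/
def fourPairs : Finset (ℕ × ℕ) := {(6, 3), (9, 3), (10, 3), (10, 5)}

/-- `α` is a Frobenius number of a K3 surface (of finite height, over the field with `p ^ a`
elements) with `[ℚ(α) : ℚ] = 2 d` and local degree `m`, and either `n ≤ 3` and `(d, m)` is not one
of nine pairs, or `m` is odd and `(d, m)` is not one of four pairs. -/
def IsGoodK3 (p : ℕ) [Fact p.Prime] {E : Type} [Field E] [NumberField E] (α : E) (n : ℕ) : Prop :=
  ∃ a d : ℕ, IsK3Number p a α ∧ Module.finrank ℚ E = 2 * d ∧ d ≤ 10 ∧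
    ((n ≤ 3 ∧ (d, localDeg p α) ∉ ninePairs) ∨
      (Odd (localDeg p α) ∧ (d, localDeg p α) ∉ fourPairs))

/-- The condition for `n` copies of a variety with the Weil number `α`, relative to the field `T`:
either `α` is of height one or rigid, and independent of `T` in degree `n`; or `α` is a good Frobenius
number of a K3 surface and its field is independent of `T`. -/
def IsAdmissible (p : ℕ) [Fact p.Prime] (ι : AlgebraicClosure ℚ →+* PadicAlgCl p) {E : Type}
    [Field E] [NumberField E] [IsCMField E] (α : E)
    (T : IntermediateField ℚ (AlgebraicClosure ℚ)) (n : ℕ) : Prop :=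
  IsIndependent p ι α T n ∨ (IsGoodK3 p α n ∧ IsIndependentField E T)

/-- The eigenvalues of `F` are roots of a nonzero rational polynomial whose slopes at the place `ι`
are determined by the field `L`. -/
def HasSlopes (p : ℕ) [Fact p.Prime] (ι : AlgebraicClosure ℚ →+* PadicAlgCl p)
    (L : IntermediateField ℚ (AlgebraicClosure ℚ)) {Ω V : Type*} [Field Ω] [CharZero Ω]
    [AddCommGroup V] [Module Ω V] (F : V →ₗ[Ω] V) : Prop :=
  ∃ Q : Polynomial ℚ, Q ≠ 0 ∧ SlopesFixed p ι L Q ∧
    ∀ ν : Ω, Module.End.HasEigenvalue F ν → Polynomial.aeval ν Q = 0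

/-- The formulas for the product of `Z` with the variety `U`. With the defects `δ j` of `U`:

* the rank of the cycles of codimension `c` on `Z × U` modulo numerical equivalence is the sum over
  `i + j = c` of the products of the ranks for `Z` in codimension `i` and for `U` in codimension
  `j`;
* the defect of `Z × U` in codimension `c` is the sum over `i + j = c` of the products of the rank
  for `Z` in codimension `i` and of the defect `δ j`. -/
def DefectsProduct {k : Type u} [Field k] {𝒱 : VarClass k} {ops : CycleOps 𝒱}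
    {W : WeilCohomology.{u, v} ops} {p : ℕ} (Φ : FrobSystem W p) (σ : W.K →+* ℂ)
    (Z U : 𝒱.Obj) : Prop :=
  ∃ δ : ℕ → ℕ, (∀ j ≤ U.dim, PoleDefect Φ σ U j (δ j)) ∧ ∀ c ≤ (Z.prod U).dim,
    numRank ops (Z.prod U) c = conv Z.dim U.dim (numRank ops Z) (numRank ops U) c ∧
    PoleDefect Φ σ (Z.prod U) c (conv Z.dim U.dim (numRank ops Z) δ c)

end Pool.Agent.L7h78.KP
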