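import Pool.Agent.L7h78.KP.Defs
import Pool.Agent.L7h78.KP.Gen

/-!
# Poles of the zeta functions of products with K3 surfaces
-/

set_option autoImplicit false
set_option linter.unusedSectionVars false

open CategoryTheory AlgebraicGeometry NumberField

universe u v

namespace Pool.Agent.L7h78.KP

open Pool.Agent.H914 Pool.Agent.H914.VarClass Pool.Agent.H914.VarClass.Obj
  Pool.Agent.H914.WeilCohomology Pool.Agent.W534 Pool.Agent.TH132.P Pool.Agent.TH121.KT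
  Pool.Agent.W517.K3
open Pool.Agent.Y138.KC hiding IsIndependentField

theorem zeroProp_of {p : ℕ} [Fact p.Prime] {ι : Qb →+* PadicAlgCl p} {E : Type} [Field E]
    [NumberField E] [IsCMField E] {α : E} {T : IntermediateField ℚ Qb} {n : ℕ}
    (h : IsAdmissible p ι α T n) : ZeroProp ι α T n := by
  rcases h with h | ⟨⟨a, d, h1, h2, h3, h4⟩, h5⟩
  · exact ⟨h.unitary, fun N hN hinv σ => independent_zero h hN hinv σ⟩
  · have h6 : IsK3Frobenius p a α :=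
      ⟨h1.cm, h1.unitary, h1.integral, h1.powers, h1.place⟩
    exact k3_zero h6 h2 rfl ⟨h3, h4⟩ h5

variable {k : Type u} [Field k] {𝒱 : VarClass k} {ops : CycleOps 𝒱}

theorem main (W : WeilCohomology.{u, v} ops) [IsAlgClosed W.K] (σ : W.K →+* ℂ) (p : ℕ)
    [Fact p.Prime] (Φ : FrobSystem W p) (hRH : ∀ Z : 𝒱.Obj, RiemannHyp Φ σ Z)
    (ι : AlgebraicClosure ℚ →+* PadicAlgCl p) {r : ℕ} (X : Fin r → 𝒱.Obj) (e : Fin r → ℕ)
    {K : Fin r → Type} [∀ i, Field (K i)] [∀ i, NumberField (K i)] [∀ i, IsCMField (K i)]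
    (α : ∀ i, K i) (hX : ∀ i, HasWeilNumber Φ (X i) (e i) (α i)) (n : Fin r → ℕ) (Z : 𝒱.Obj)
    (hZ : IsProductOfCopies W X n Z) (L : IntermediateField ℚ (AlgebraicClosure ℚ))
    (S : Fin r → IntermediateField ℚ (AlgebraicClosure ℚ))
    (hS : ∀ i, IsSlopeField p ι (S i) (α i))
    (hα : ∀ i, IsAdmissible p ι (α i) (tower S L i) (n i)) :
    (∀ j ≤ Z.dim, PoleDefect Φ σ Z j 0) ∧
    ∀ U : 𝒱.Obj, HasSlopes p ι L (W.map (Φ.Fr U)).toLinearMap → DefectsProduct Φ σ Z U := by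
  have hp := (Fact.out : p.Prime).one_lt
  have hTT : TateTimesP Φ (InL p ι L) Z :=
    tateTimesP_products' hX hZ hS fun i => zeroProp_of (hα i)
  refine ⟨fun j hj => ?_, ?_⟩
  · obtain ⟨t, ht, h⟩ := pole_of_tateTimesP hp (hRH Z) hTT (inL_one L) j hj
    exact ⟨t, ht, fun s hs hts => by rw [h s hs hts]; simp⟩
  rintro U ⟨Q, hQ, hLQ, hroot⟩
  obtain ⟨δ, h1, h2⟩ := defects_of_tateTimesP hp hRH hTT (inL_one L)
    (fun ν n hn h => inL_pow L ν n hn h) U
    (fun ν hν => ⟨Q, ν, 1, one_pos, hQ, hLQ, hroot ν hν, (pow_one ν).symm⟩)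
  exact ⟨δ, h1, fun c hc => ⟨(h2 c hc).1, (h2 c hc).2.1⟩⟩

end Pool.Agent.L7h78.KP
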