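import Pool.Agent.L7h94.RH.Prod
import Pool.Agent.L7h78.KP.Main

/-!
# The Riemann hypothesis for the products of K3 surfaces

The Riemann hypothesis holds for a variety whose cohomology is spanned by eigenvectors of powers of the
Frobenius endomorphism, of the right absolute values. So in the theorem on the poles it is a hypothesis
for the second factor only.
-/

set_option autoImplicit false
set_option linter.unusedSectionVars false
set_option linter.unusedVariables false

open CategoryTheory AlgebraicGeometry NumberField Module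

universe u v

namespace Pool.Agent.L7h78.KP

open Pool.Agent.H914 Pool.Agent.H914.VarClass Pool.Agent.H914.VarClass.Obj
  Pool.Agent.H914.WeilCohomology Pool.Agent.H281R3.HT Pool.Agent.W534 Pool.Agent.TH132.P
  Pool.Agent.TH121.KT Pool.Agent.W517.K3
open Pool.Agent.Y138.KC hiding IsIndependentField

variable {k : Type u} [Field k] {𝒱 : VarClass k} {ops : CycleOps 𝒱}
  {W : WeilCohomology.{u, v} ops} {X Y Z : 𝒱.Obj} {p : ℕ} [hp : Fact p.Prime] {Φ : FrobSystem W p}
  {σ : W.K →+* ℂ}

/-- The homogeneous eigenvectors of the powers of the Frobenius endomorphism with the right absolute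
values. -/
def GoodVec (Φ : FrobSystem W p) (σ : W.K →+* ℂ) (X : 𝒱.Obj) : Set (W.H X) :=
  {x | ∃ d, x ∈ W.gr X d ∧ ∃ a, 0 < a ∧ ∃ lam : W.K, frob Φ X a x = lam • x ∧
    ‖σ lam‖ ^ 2 = (card Φ X a : ℝ) ^ d}

lemma pow_eig {K V : Type*} [Field K] [AddCommGroup V] [Module K V] {f : Module.End K V} {x : V}
    {l : K} (h : f x = l • x) (r : ℕ) : (f ^ r) x = l ^ r • x := by
  induction r with
  | zero => simp
  | succ r ih => rw [pow_succ, Module.End.mul_apply, h, map_smul, ih, smul_smul, ← pow_succ']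

theorem rh_of_span [IsAlgClosed W.K] (h : Submodule.span W.K (GoodVec Φ σ X) = ⊤) :
    RiemannHyp Φ σ X := by
  classical
  intro s hs d μ hμ
  obtain ⟨y, rfl, hy⟩ := L7h94.RH.exists_root hμ
  rw [← Module.End.hasEigenvalue_iff_isRoot_charpoly] at hy
  obtain ⟨v, hv⟩ := hy.exists_hasEigenvector
  have hv1 : (frobOn Φ X s d) v = y • v := hv.apply_eq_smul
  set x : W.H X := (v : W.H X) with hx
  have hx0 : x ≠ 0 := fun h => hv.2 (Subtype.ext h)
  have hx1 : frob Φ X s x = y • x := congrArg Subtype.val hv1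
  let bs := Basis.ofSpan h.ge
  have hbs : ∀ i, bs i ∈ GoodVec Φ σ X := fun i => Basis.ofSpan_subset h.ge ⟨i, rfl⟩
  choose dg hgr a ha lam hlam hnorm using hbs
  have := FiniteDimensional.fintypeBasisIndex bs
  have hA : ∀ i, a i * ((∏ j ∈ Finset.univ.erase i, a j) * s) = s * ∏ j, a j := by
    intro i
    rw [← Finset.mul_prod_erase Finset.univ a (Finset.mem_univ i)]
    ring
  set A := ∏ j, a j with hAdef
  have hApos : 0 < A := Finset.prod_pos fun j _ => ha j
  have hx2 : frob Φ X (s * A) x = y ^ A • x := by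
    rw [frob_mul_eq]
    exact pow_eig hx1 A
  have hb2 : ∀ i, frob Φ X (s * A) (bs i) =
      (lam i ^ ((∏ j ∈ Finset.univ.erase i, a j) * s)) • bs i := by
    intro i
    rw [← hA i, frob_mul_eq]
    exact pow_eig (hlam i) _
  obtain ⟨i, hi⟩ : ∃ i, bs.repr x i ≠ 0 := by
    by_contra hcon
    push Not at hcon
    apply hx0
    rw [← bs.repr.map_eq_zero_iff]
    exact Finsupp.ext hcon
  have hdeg : dg i = d := by
    by_contra hne
    exact hi (R940.repr_zero (W.isInternal X).submodule_iSupIndep bs dg hgr v.2 hne)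
  have heig : lam i ^ ((∏ j ∈ Finset.univ.erase i, a j) * s) = y ^ A := by
    by_contra hne
    exact hi (R940.repr_zero (Module.End.eigenspaces_iSupIndep (frob Φ X (s * A))) bs
      (fun i => lam i ^ ((∏ j ∈ Finset.univ.erase i, a j) * s))
      (fun i => Module.End.mem_eigenspace_iff.2 (hb2 i)) (Module.End.mem_eigenspace_iff.2 hx2) hne)
  have e4 : (‖σ y‖ ^ 2) ^ A = ((card Φ X s : ℝ) ^ d) ^ A := by
    calc (‖σ y‖ ^ 2) ^ A = ‖σ (y ^ A)‖ ^ 2 := by rw [map_pow, norm_pow]; ring
      _ = (‖σ (lam i)‖ ^ 2) ^ ((∏ j ∈ Finset.univ.erase i, a j) * s) := by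
          rw [← heig, map_pow, norm_pow]; ring
      _ = ((card Φ X (a i) : ℝ) ^ (dg i)) ^ ((∏ j ∈ Finset.univ.erase i, a j) * s) := by
          rw [hnorm]
      _ = (p : ℝ) ^ (Φ.e X * (a i * ((∏ j ∈ Finset.univ.erase i, a j) * s)) * dg i) := by
          rw [card]
          push_cast
          simp only [← pow_mul]
          congr 1
          ring
      _ = (p : ℝ) ^ (Φ.e X * (s * A) * d) := by rw [hA i, hdeg]
      _ = ((card Φ X s : ℝ) ^ d) ^ A := by
          rw [card]
          push_cast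
          simp only [← pow_mul]
          congr 1
          ring
  exact (pow_left_inj₀ (by positivity) (by positivity) hApos.ne').1 e4

/-- The classes of the cycles are good. -/
lemma algSpan_le : algSpan W X ≤ Submodule.span W.K (GoodVec Φ σ X) := by
  refine Submodule.span_mono ?_
  rintro x hx
  obtain ⟨j, hj⟩ := Set.mem_iUnion.1 hx
  obtain ⟨z, hz, rfl⟩ := hj
  obtain ⟨s, hs, h1⟩ := Φ.cyc hz
  refine ⟨2 * j, W.cl_mem hz, s, hs, (p : W.K) ^ (Φ.e X * s * j), h1, ?_⟩
  rw [map_pow, map_natCast, norm_pow, Complex.norm_natCast, card]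
  push_cast
  simp only [← pow_mul]
  congr 1
  ring

lemma letters_le {e : ℕ} (he : 0 < e) {K : Type} [Field K] {α : K}
    (hα : ∀ φ : K →+* ℂ, ‖φ α‖ = 1) :
    Submodule.span W.K {x : W.H X | ∃ s, IsLetter Φ X e α s x} ≤
      Submodule.span W.K (GoodVec Φ σ X) := by
  refine Submodule.span_mono ?_
  rintro x ⟨s, hx, μ, N, hN, h1, h2⟩
  refine ⟨X.dim, hx, 1, one_pos, μ, ?_, ?_⟩
  · rw [frob_apply, W534.map_iter]
    exact h1
  · have h3 := congrArg (fun t => ‖σ t‖) h2
    simp only [map_pow, map_mul, norm_pow, norm_mul, map_natCast, Complex.norm_natCast] at h3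
    have h4 : ‖σ (s α)‖ = 1 := hα (σ.comp s)
    rw [h4, one_pow, mul_one] at h3
    have h5 : (‖σ μ‖ ^ 2) ^ (e * N) = ((card Φ X 1 : ℝ) ^ X.dim) ^ (e * N) := by
      rw [← pow_mul, ← mul_assoc, h3, card]
      push_cast
      simp only [← pow_mul]
      congr 1
      ring
    exact (pow_left_inj₀ (by positivity) (by positivity) (Nat.mul_pos he hN).ne').1 h5

/-- **The Riemann hypothesis for the varieties with a Weil number.** -/
theorem rh_of_weilNumber [IsAlgClosed W.K] {e : ℕ} {K : Type} [Field K] {α : K}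
    (hX : HasWeilNumber Φ X e α) (hα : ∀ φ : K →+* ℂ, ‖φ α‖ = 1) : RiemannHyp Φ σ X :=
  rh_of_span (eq_top_iff.2 (hX.spanned ▸ sup_le algSpan_le (letters_le hX.pos hα)))

/-- **The Riemann hypothesis for their products.** -/
theorem rh_products [IsAlgClosed W.K] {r : ℕ} {X : Fin r → 𝒱.Obj} {e : Fin r → ℕ}
    {K : Fin r → Type} [∀ i, Field (K i)] {α : ∀ i, K i}
    (hX : ∀ i, HasWeilNumber Φ (X i) (e i) (α i)) (hα : ∀ i, ∀ φ : K i →+* ℂ, ‖φ (α i)‖ = 1)
    {n : Fin r → ℕ} {Z : 𝒱.Obj} (hZ : IsProductOfCopies W X n Z) : RiemannHyp Φ σ Z := by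
  induction hZ with
  | alg h => exact rh_of_span (eq_top_iff.2 (h ▸ algSpan_le))
  | base i => exact rh_of_weilNumber (hX i) (hα i)
  | prod _ _ ih1 ih2 => exact L7h94.RH.prod ih1 ih2

end Pool.Agent.L7h78.KP
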