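import Pool.Agent.L7h78.KP.Rh

/-!
# Poles of the zeta functions of products with K3 surfaces, without the Riemann hypothesis for all
varieties
-/

set_option autoImplicit false
set_option linter.unusedSectionVars false
set_option linter.unusedVariables false

open CategoryTheory AlgebraicGeometry NumberField
open scoped TensorProduct

universe u v

namespace Pool.Agent.L7h78.KP

section Gen

open Pool.Agent.H914 Pool.Agent.H914.VarClass Pool.Agent.H914.VarClass.Obj
  Pool.Agent.H914.WeilCohomology Pool.Agent.H281R3.HT Pool.Agent.W552 Pool.Agent.W534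
  Pool.Agent.H447 Pool.Agent.TH132.A Pool.Agent.W458.RK Pool.Agent.W458.MF Pool.Agent.TH132.P
  Pool.Agent.TH121.KT

variable {k : Type u} [Field k] {𝒱 : VarClass k} {ops : CycleOps 𝒱}
  {W : WeilCohomology.{u, v} ops} {X U Z : 𝒱.Obj} {p : ℕ} {Φ : FrobSystem W p}
  {σ : W.K →+* ℂ} {PP : W.K → Prop}

/-- **The formula for the defects of the product**, for one variety `U`. -/
theorem defects_of_tateTimesP' [IsAlgClosed W.K] (hp : 1 < p) (U : 𝒱.Obj)
    (hRHU : RiemannHyp Φ σ U) (hRH : RiemannHyp Φ σ (X.prod U)) (hT : TateTimesP Φ PP X)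
    (h1PP : PP 1) (hpow : ∀ ν (n : ℕ), 0 < n → PP ν → PP (ν ^ n))
    (hU : ∀ ν, Module.End.HasEigenvalue (W.map (Φ.Fr U)).toLinearMap ν → PP ν) :
    ∃ δ : ℕ → ℕ, (∀ j ≤ U.dim, PoleDefect Φ σ U j (δ j)) ∧ ∀ c ≤ (X.prod U).dim,
      numRank ops (X.prod U) c = conv X.dim U.dim (numRank ops X) (numRank ops U) c ∧
      PoleDefect Φ σ (X.prod U) c (conv X.dim U.dim (numRank ops X) δ c) := by
  have hD := homEqNum_of_tateTimesP hp hT h1PP
  obtain ⟨κ, _, _, e, b, d, h⟩ := exists_hFam hD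
  have hS : ∀ z, AS W (X.prod U) z → z ∈ tens W X U := fun z hz =>
    tens_of_tateTimesP hp hT h1PP hpow hU hz
  -- the ranks
  have hrank : ∀ c ≤ (X.prod U).dim, numRank ops (X.prod U) c =
      conv X.dim U.dim (numRank ops X) (numRank ops U) c := by
    intro c hc
    have h1 := finrank_nul (W := W) (Z := X.prod U) c
    rw [← numRank_eq (W := W) hc, h.nul_eq hS hc, h.span_eq hS,
      HFam.finrank_combs' h hD (fun j hj => nul_bot hj),
      HFam.finrank_combs' h hD (fun j hj => spanCycles_bot hj)] at h1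
    have h2 : conv X.dim U.dim (numRank ops X)
        (fun j => Module.finrank W.K (spanCycles W U (j : ℕ))) c =
        conv X.dim U.dim (numRank ops X)
          (fun j => numRank ops U j + Module.finrank W.K (nul W U j)) c :=
      conv_congr (fun _ _ => rfl) fun j hj => by
        rw [numRank_eq (W := W) hj]
        exact (finrank_nul (W := W) (Z := U) j).symm
    rw [h2, conv_add] at h1
    exact Nat.add_right_cancel h1
  have hdef : ∀ c ≤ (X.prod U).dim, PoleDefect Φ σ (X.prod U) c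
      (conv X.dim U.dim (numRank ops X) (defect Φ U) c) := by
    intro c hc
    refine poleDefect_of hp hRH hc ?_
    rw [genT_eqP h hT hpow hU, HFam.finrank_combs' h hD (fun j hj => genT_bot hj), hrank c hc,
      ← conv_add]
    exact conv_congr (fun _ _ => rfl) fun j hj => (numRank_add_defect U hj).symm
  have hU' : ∀ j ≤ U.dim, PoleDefect Φ σ U j (defect Φ U j) := fun j hj =>
    poleDefect_of hp hRHU hj (numRank_add_defect U hj).symm
  exact ⟨defect Φ U, hU', fun c hc => ⟨hrank c hc, hdef c hc⟩⟩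

end Gen

open Pool.Agent.H914 Pool.Agent.H914.VarClass Pool.Agent.H914.VarClass.Obj
  Pool.Agent.H914.WeilCohomology Pool.Agent.W534 Pool.Agent.TH132.P Pool.Agent.TH121.KT
  Pool.Agent.W517.K3
open Pool.Agent.Y138.KC hiding IsIndependentField

theorem main' {k : Type u} [Field k] {𝒱 : VarClass k} {ops : CycleOps 𝒱}
    (W : WeilCohomology.{u, v} ops) [IsAlgClosed W.K] (σ : W.K →+* ℂ) (p : ℕ)
    [Fact p.Prime] (Φ : FrobSystem W p)
    (ι : AlgebraicClosure ℚ →+* PadicAlgCl p) {r : ℕ} (X : Fin r → 𝒱.Obj) (e : Fin r → ℕ)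
    {K : Fin r → Type} [∀ i, Field (K i)] [∀ i, NumberField (K i)] [∀ i, IsCMField (K i)]
    (α : ∀ i, K i) (hX : ∀ i, HasWeilNumber Φ (X i) (e i) (α i)) (n : Fin r → ℕ) (Z : 𝒱.Obj)
    (hZ : IsProductOfCopies W X n Z) (L : IntermediateField ℚ (AlgebraicClosure ℚ))
    (S : Fin r → IntermediateField ℚ (AlgebraicClosure ℚ))
    (hS : ∀ i, IsSlopeField p ι (S i) (α i))
    (hα : ∀ i, IsAdmissible p ι (α i) (tower S L i) (n i)) :
    (∀ j ≤ Z.dim, PoleDefect Φ σ Z j 0) ∧
    ∀ U : 𝒱.Obj, RiemannHyp Φ σ U → HasSlopes p ι L (W.map (Φ.Fr U)).toLinearMap →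
      DefectsProduct Φ σ Z U := by
  have hp := (Fact.out : p.Prime).one_lt
  have hTT : TateTimesP Φ (InL p ι L) Z :=
    tateTimesP_products' hX hZ hS fun i => zeroProp_of (hα i)
  have hRHZ : RiemannHyp Φ σ Z := rh_products hX (fun i => (zeroProp_of (hα i)).1) hZ
  refine ⟨fun j hj => ?_, ?_⟩
  · obtain ⟨t, ht, h⟩ := pole_of_tateTimesP hp hRHZ hTT (inL_one L) j hj
    exact ⟨t, ht, fun s hs hts => by rw [h s hs hts]; simp⟩
  rintro U hU ⟨Q, hQ, hLQ, hroot⟩
  obtain ⟨δ, h1, h2⟩ := defects_of_tateTimesP' hp U hU (L7h94.RH.prod hRHZ hU) hTT (inL_one L)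
    (fun ν n hn h => inL_pow L ν n hn h)
    (fun ν hν => ⟨Q, ν, 1, one_pos, hQ, hLQ, hroot ν hν, (pow_one ν).symm⟩)
  exact ⟨δ, h1, fun c hc => h2 c hc⟩

end Pool.Agent.L7h78.KP
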